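import Pool.Agent.Lib.MP_c54930_gt.Final

/-!
# A model of `ZFC` with an uncountable first countable regular submetrizable space whose space of
quasicontinuous functions is Frechet-Urysohn
-/

namespace Pool.Agent.Results.MP_c54930_gt.ZFCModel

open Pool.Agent.Lib.MP_c54930_gt Pool.Agent.Lib.MP_1ab623_gt

/-- There is a model `(M, E)` of `ZFC` in which there is an uncountable, first countable, regular
Hausdorff, submetrizable space `X` (with topology `τ`) such that the space of quasicontinuous
functions from `X` to the real line `(R, L)`, with the topology of pointwise convergence, is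
Frechet-Urysohn. -/
theorem result : ∃ (M : Type) (E : M → M → Prop), IsZFC E ∧
    ∃ w R L X τ : M, IsOmega E w ∧ IsRealLine E w R L ∧ IsTopology E X τ ∧
      Hausdorff E X τ ∧ Regular E X τ ∧ FirstCountable E w X τ ∧ Submetrizable E w X τ ∧
      Uncountable E w X ∧ QpFrechetUrysohn E w X τ R L := by
  obtain ⟨M, E, hE, w, R, L, X, τ, h0, h1, h2, h3, h4, _, _, h7, h8, h9, h10⟩ :=
    Pool.Agent.Lib.MP_c54930_gt.exists_ZFC_model
  exact ⟨M, E, hE, w, R, L, X, τ, h0, h1, h2, h3, h4, h7, h8, h9, h10⟩

end Pool.Agent.Results.MP_c54930_gt.ZFCModel
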